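import Mathlib
import Pool.Agent.R384.End
import Pool.Agent.R384.X.Mq7
import Pool.Agent.R384.X.Idx7
import Pool.Agent.R426.QB.Fld
import Pool.Agent.R428.Q0.Conv
import Pool.Agent.R428.Q0.Fh
import Pool.Agent.Y687.JQ.Fin

/-!
# The Bloch–Kato Selmer groups of all odd weights for the twists of `X_0(49)` over multiquadratic
# fields of every degree

`K = ℚ(√-7)` with ring of integers `ℤ[ω]`, `ω² = ω - 2`; `(2) = (ω) (1 - ω)`. Let `E_M` be the
quadratic twist by `M` of `X_0(49)`, an elliptic curve over `ℚ` with complex multiplication by `ℤ[ω]`.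
The group `Gal(ℚ̄/K)` acts on its `2`-adic Tate module by two characters `κ`, `κ'`. For `k > 0` the
representation `H^{2k-1}(E_M^{2k-1}, ℚ_2(k))` contains the `2`-adic representation
`ℚ_2(κ^k κ'^(1-k)) ⊕ ℚ_2(κ^(1-k) κ'^k)` of the newform of weight `2k` of the Hecke character
`ψ_M^{2k-1}`, at the central point.

The class consists of the squarefree `D = 1 mod 8` with all prime factors `1 mod 8` and split in `K` or
`5 mod 8` and inert in `K`. A pair of `M` and of `ℚ(√d_1, …, √d_n)` is good if all the numbers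
`M ∏_{i ∈ T} d_i` are, up to squares, numbers `D` of the class such that `E_D(ℚ)` is finite and
`Ш(E_D/ℚ)` has no element of order two: a condition on the weight `2` and the field `ℚ` only.
* If the pair is good then the Bloch–Kato Selmer groups over `L = K(√d_1, …, √d_n)` of the
  representations of the newforms of all weights `2k`, `k` odd, are zero. In particular (`n = 0`) this
  holds over `K`, if `E_M(ℚ)` is finite and `Ш(E_M/ℚ)` has no element of order two.
* For all `M`, `d_1, …, d_n` of the class, `d_1, …, d_n` independent modulo squares, this holds for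
  `M D`, for at least the proportion `c ^ (2 ^ n)` of the `D` of the class, `c = 0.419…`.
* Every good field has many good quadratic extensions: if the pair `(M, ℚ(√d_1, …, √d_n))` is good
  then so is the pair `(M, ℚ(√d_1, …, √d_n, √D))`, for at least the proportion `c ^ (2 ^ n)` of the
  `D` of the class. So there are infinite towers of fields over which all these groups are zero.
-/

set_option autoImplicit false

namespace Pool.Agent.Results.MP_787500_nt.AllWeightsMultiquadraticX49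

open WeierstrassCurve Filter Topology
open scoped Classical

/-! ### The curves -/

/-- An algebraic closure of `ℚ`. -/
abbrev QBar : Type := AlgebraicClosure ℚ

/-- The ring of integers `ℤ[ω]`, `ω² = ω - 2`, of `ℚ(√-7)`. -/
abbrev OK : Type := QuadraticAlgebra ℤ (-2) 1

/-- The field `K = ℚ(w)`. It is `ℚ(√-7)` if `w² = w - 2`. -/
noncomputable abbrev K (w : QBar) : IntermediateField ℚ QBar := IntermediateField.adjoin ℚ {w}

/-- `w` as an element of `K`. -/
noncomputable def gen (w : QBar) : K w := ⟨w, IntermediateField.mem_adjoin_simple_self ℚ w⟩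

/-- The element `a + b ω` of `ℤ[ω]` as an element of the field `L`, `w` being the image of `ω`. -/
def emb {L : Type} [Ring L] (w : L) (z : OK) : L := z.re + z.im * w

/-- The curve `y² = x³ + 3 (1 - w) d x² + w⁴ d² x`. -/
def curve {F : Type} [Field F] (w d : F) : WeierstrassCurve F :=
  ⟨0, 3 * (1 - w) * d, 0, w ^ 4 * d ^ 2, 0⟩

/-- The curve `E_D : y² = x³ + 3 (1 - ω) D x² + ω⁴ D² x` over `K`. -/
noncomputable def ED (w : QBar) (D : OK) : WeierstrassCurve (K w) := curve (gen w) (emb (gen w) D)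

/-- The absolute Galois group of `K`. -/
abbrev Gal (w : QBar) : Type := QBar ≃ₐ[K w] QBar

/-- The subgroups of the Galois group. -/
abbrev Sub (w : QBar) : Type := Subgroup (Gal w)

/-- The characters of the Galois group with values in the units of `ℤ_2`. -/
abbrev Chr (w : QBar) : Type := Gal w →* ℤ_[2]ˣ

/-- The values of the character `χ`, in `ℤ_2`. -/
noncomputable def zv {w : QBar} (χ : Chr w) (σ : Gal w) : ℤ_[2] := ((χ σ : ℤ_[2]ˣ) : ℤ_[2])

/-- The values of the character `χ`, in `ℚ_2`. -/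
noncomputable def qv {w : QBar} (χ : Chr w) (σ : Gal w) : ℚ_[2] := ((zv χ σ : ℤ_[2]) : ℚ_[2])

/-- The group `E_D(ℚ̄)`. -/
abbrev Pts (w : QBar) (D : OK) : Type := ((ED w D).toAffine.baseChange QBar).Point

/-- The action of the Galois group on `E_D(ℚ̄)`. -/
noncomputable def act {w : QBar} {D : OK} (σ : Gal w) : Pts w D →+ Pts w D :=
  Affine.Point.map (W' := (ED w D).toAffine) (S := K w) (F := QBar) (K := QBar) σ.toAlgHom

/-- The sequences `x` and `y` are elements of the `2`-adic Tate module of the abelian group `A`, and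
they are a basis of it. -/
structure IsBasis {A : Type} [AddCommGroup A] (x y : ℕ → A) : Prop where
  zero : x 0 = 0 ∧ y 0 = 0
  double : ∀ n, x (n + 1) + x (n + 1) = x n ∧ y (n + 1) + y (n + 1) = y n
  span : ∀ (n : ℕ) (P : A), (2 ^ n : ℤ) • P = 0 → ∃ a b : ℤ, P = a • x n + b • y n
  indep : ∀ (n : ℕ) (a b : ℤ), a • x n + b • y n = 0 → (2 ^ n : ℤ) ∣ a ∧ (2 ^ n : ℤ) ∣ b

/-- The endomorphism `f` of the abelian group `A` acts on the element `x` of its `2`-adic Tate module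
as the multiplication by the `2`-adic integer `z`. -/
def ActsBy {A : Type} [AddCommGroup A] (f : A →+ A) (x : ℕ → A) (z : ℤ_[2]) : Prop :=
  ∀ (n : ℕ) (k : ℤ), (2 : ℤ_[2]) ^ n ∣ z - k → f (x n) = k • x n

/-! ### The Selmer groups -/

/-- The decomposition group of the place of `K` given by the embedding `ι` of `ℚ̄`. -/
def Dec {w : QBar} {p : ℕ} [Fact p.Prime] (ι : QBar →ₐ[ℚ] PadicAlgCl p) : Set (Gal w) :=
  {σ | ∃ τ : PadicAlgCl p ≃ₐ[ℚ_[p]] PadicAlgCl p, ∀ x, τ (ι x) = ι (σ x)}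

/-- Its inertia group: the automorphisms which are trivial on the residue field. -/
def Inr {w : QBar} {p : ℕ} [Fact p.Prime] (ι : QBar →ₐ[ℚ] PadicAlgCl p) : Set (Gal w) :=
  {σ | ∃ τ : PadicAlgCl p ≃ₐ[ℚ_[p]] PadicAlgCl p, (∀ x, τ (ι x) = ι (σ x)) ∧
    ∀ z : PadicAlgCl p, ‖z‖ ≤ 1 → ‖τ z - z‖ < 1}

/-- The restriction of the function `c` to `H` is a continuous cocycle with values in `ℚ_2(χ)`. -/
structure IsCocycle {w : QBar} (H : Sub w) (χ : Chr w) (c : Gal w → ℚ_[2]) : Prop where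
  cont : ContinuousOn c H
  mul : ∀ σ ∈ H, ∀ τ ∈ H, c (σ * τ) = c σ + qv χ σ * c τ

/-- The restriction of `c` to the intersection of `S` and `H` is a coboundary. -/
def TrivialOn {w : QBar} (H : Sub w) (χ : Chr w) (S : Set (Gal w)) (c : Gal w → ℚ_[2]) : Prop :=
  ∃ y : ℚ_[2], ∀ σ ∈ S, σ ∈ H → c σ = (qv χ σ - 1) * y

/-- The Bloch–Kato conditions over the field `L` fixed by `H`, for a character `χ` whose Hodge–Tate
weight is positive at one of the two places of `K` above `2` and not positive at the other one, which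
is the one that divides `v`: the class is trivial on the inertia groups of the places of `L` prime to
`2` and on the decomposition groups of the places of `L` which divide `v`. -/
structure IsSelmer {w : QBar} (v : QBar) (H : Sub w) (χ : Chr w) (c : Gal w → ℚ_[2]) : Prop where
  odd : ∀ (p : ℕ) [Fact p.Prime] (ι : QBar →ₐ[ℚ] PadicAlgCl p), p ≠ 2 → TrivialOn H χ (Inr ι) c
  two : ∀ ι : QBar →ₐ[ℚ] PadicAlgCl 2, ‖ι v‖ < 1 → TrivialOn H χ (Dec ι) c

/-- All the classes of the Selmer group of `ℚ_2(χ)` over the field fixed by `H` are trivial. -/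
def SelmerZero {w : QBar} (v : QBar) (H : Sub w) (χ : Chr w) : Prop :=
  ∀ c : Gal w → ℚ_[2], IsCocycle H χ c → IsSelmer v H χ c → TrivialOn H χ Set.univ c

/-- The character `κ ^ j κ' ^ (1 - j)`. -/
noncomputable def chi {w : QBar} (κ κ' : Chr w) (j : ℤ) : Chr w := κ ^ j * κ' ^ (1 - j)

/-- `κ` has order at most two on the inertia groups of the places that do not divide `v`. -/
def FiniteOff {w : QBar} (v : QBar) (κ : Chr w) : Prop :=
  ∀ (p : ℕ) [Fact p.Prime] (ι : QBar →ₐ[ℚ] PadicAlgCl p), ‖ι v‖ = 1 → ∀ σ ∈ Inr ι, zv κ σ ^ 2 = 1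

/-- The character `κ` is continuous and the Galois group acts by it on the element `x` of the Tate
module. -/
def Eigen {w : QBar} {D : OK} (κ : Chr w) (x : ℕ → Pts w D) : Prop :=
  Continuous (zv κ) ∧ ∀ σ : Gal w, ActsBy (act σ) x (zv κ σ)

/-- The Galois group acts on the `2`-adic Tate module of `E_D` through the sum of the continuous
characters `κ`, `κ'`; the first one has order at most two on the inertia groups of the places that
do not divide `ω`, and the second one on those of the places that do not divide `1 - ω`. So `κ` has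
the Hodge–Tate weights `1` at `ω` and `0` at `1 - ω`, and `κ'` has the weights `0` at `ω` and `1` at
`1 - ω`. -/
def TateModule {w : QBar} (D : OK) (κ κ' : Chr w) : Prop :=
  (∃ x y : ℕ → Pts w D, IsBasis x y ∧ Eigen κ x ∧ Eigen κ' y) ∧
    FiniteOff w κ ∧ FiniteOff (1 - w) κ'

/-! ### The twists of `X_0(49)` -/

/-- The curve `E_D : y² + x y = x³ - ((3 D + 1) / 4) x² - 2 D² x - D³` over `ℚ`, the quadratic twist
by `D` of `X_0(49) : y² + x y = x³ - x² - 2 x - 1`. -/
def E (D : ℕ) : WeierstrassCurve ℚ :=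
  { a₁ := 1, a₂ := -((3 * (D : ℚ) + 1) / 4), a₃ := 0, a₄ := -2 * (D : ℚ) ^ 2, a₆ := -(D : ℚ) ^ 3 }

/-- `E_D(ℚ)` is finite and `Ш(E_D/ℚ)` has no element of order two. -/
def RankZeroShaTwo (D : ℕ) : Prop :=
  Finite (E D).toAffine.Point ∧ ∀ x : Pool.Agent.TH841.NF.D.Sha (E D), 2 • x = 0 → x = 0

/-- The element `-√-7 D` of `ℤ[ω]`. -/
def tw (D : ℕ) : OK := ⟨D, -2 * D⟩

/-- The class: `D ≥ 1` is squarefree, `D ≡ 1 mod 8`, and the prime factors of `D` are `1 mod 8` and
split in `K`, or `5 mod 8` and inert in `K`. -/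
def Adm (D : ℕ) : Prop := Squarefree D ∧ D % 8 = 1 ∧ ∀ p : ℕ, p.Prime → p ∣ D →
  (p % 8 = 1 ∧ (p % 7 = 1 ∨ p % 7 = 2 ∨ p % 7 = 4)) ∨
  (p % 8 = 5 ∧ (p % 7 = 3 ∨ p % 7 = 5 ∨ p % 7 = 6))

/-- No product of some of the `d_i` is a square: `K(√d_1, …, √d_n)` has degree `2 ^ n` over `K`. -/
def Ind {n : ℕ} (d : Fin n → ℕ) : Prop :=
  ∀ T : Finset (Fin n), T.Nonempty → ¬ IsSquare (∏ i ∈ T, d i)

/-- The good pairs: all the numbers `M ∏_{i ∈ T} d_i` are, up to nonzero squares, numbers `D` of the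
class such that `E_D(ℚ)` is finite and `Ш(E_D/ℚ)` has no element of order two. -/
def Good (M : ℕ) {n : ℕ} (d : Fin n → ℕ) : Prop := ∀ T : Finset (Fin n), ∃ D k : ℕ,
  k ≠ 0 ∧ Adm D ∧ RankZeroShaTwo D ∧ M * ∏ i ∈ T, d i = D * k ^ 2

/-- The Galois group of `ℚ̄` over the field `L = K(s_1, …, s_n)`. -/
noncomputable def GalL (w : QBar) {n : ℕ} (s : Fin n → QBar) : Sub w :=
  (IntermediateField.adjoin (K w) (Set.range s)).fixingSubgroup

/-- The curve `E_M` over `K`. -/
noncomputable def EK (w : QBar) (M : ℕ) : WeierstrassCurve (K w) := (E M).map (algebraMap ℚ (K w))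

/-- The curves are isomorphic: they differ by a change of variables. -/
def Iso {F : Type} [Field F] (W W' : WeierstrassCurve F) : Prop :=
  ∃ C : VariableChange F, C • W = W'

/-- All the classes of the Selmer groups over `L = K(s_1, …, s_n)` of `ℚ_2(κ^k κ'^(1-k))` and
`ℚ_2(κ^(1-k) κ'^k)` are trivial for all odd `k > 0`. -/
def OddWeights {w : QBar} (κ κ' : Chr w) {n : ℕ} (s : Fin n → QBar) : Prop :=
  ∀ k : ℤ, 0 < k → Odd k → SelmerZero (1 - w) (GalL w s) (chi κ κ' k) ∧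
    SelmerZero w (GalL w s) (chi κ κ' (1 - k))

/-- The curve `E_M` is over `K` isomorphic to the elliptic curve `ED w (tw M)`, the Galois group acts
on its `2`-adic Tate module by `κ`, `κ'`, and all the classes of the Selmer groups over
`L = K(√d_1, …, √d_n)` of `ℚ_2(κ^k κ'^(1-k))` and `ℚ_2(κ^(1-k) κ'^k)` are trivial for all odd
`k > 0`. -/
def AllWeights (M : ℕ) {n : ℕ} (d : Fin n → ℕ) : Prop := ∀ w : QBar, w ^ 2 = w - 2 →
  Iso (EK w M) (ED w (tw M)) ∧ (ED w (tw M)).IsElliptic ∧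
  ∃ κ κ' : Chr w, TateModule (tw M) κ κ' ∧
    ∀ s : Fin n → QBar, (∀ i, s i ^ 2 = (d i : QBar)) → OddWeights κ κ' s

/-- The proportion `(1 - 1/2) (1 - 1/8) (1 - 1/32) ⋯`. -/
noncomputable def c : ℝ := ∏' i : ℕ, (1 - (1 / 2 : ℝ) ^ (2 * i + 1))

/-- The proportion of the `D ≤ X` with `P D` among those of the class. -/
noncomputable def prop (P : ℕ → Prop) (X : ℕ) : ℝ :=
  (((Finset.Icc 1 X).filter fun D : ℕ => Adm D ∧ P D).card : ℝ) /
    (((Finset.Icc 1 X).filter fun D : ℕ => Adm D).card : ℝ)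

/-- Asymptotically at least the proportion `y` of the numbers of the class have the property `P`. -/
def AtLeast (y : ℝ) (P : ℕ → Prop) : Prop := ∀ x : ℝ, x < y → ∀ᶠ X : ℕ in atTop, x < prop P X

/-- `M`, `d_1, …, d_n` are in the class, and `d_1, …, d_n` are independent modulo squares. -/
def InClass (M : ℕ) {n : ℕ} (d : Fin n → ℕ) : Prop := Adm M ∧ (∀ i, Adm (d i)) ∧ Ind d

/-- The numbers `d_1, …, d_n, D`. -/
def add {n : ℕ} (d : Fin n → ℕ) (D : ℕ) : Fin (n + 1) → ℕ := Fin.snoc d D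

/-! ### The proof -/

section proof

open Pool.Agent.Y676.IS (Cu some_congr)
open Pool.Agent.R384 (WD ca cb em)

variable {w : QBar} (hw : w ^ 2 = w - 2) {D : OK}

lemma gen_sq : gen w ^ 2 = gen w - 2 ↔ w ^ 2 = w - 2 := by
  rw [Subtype.ext_iff]
  rfl

lemma emb_eq (z : OK) : ((emb (gen w) z : K w) : QBar) = em hw z := by
  unfold emb
  rw [Pool.Agent.R384.em_apply]
  push_cast
  rfl

lemma curve_eq : (ED w D).toAffine.baseChange QBar = Cu (ca w (em hw D)) (cb w (em hw D)) := by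
  have h1 : algebraMap (K w) QBar (gen w) = w := rfl
  have h2 : algebraMap (K w) QBar (emb (gen w) D) = em hw D := emb_eq hw D
  unfold ED curve Cu ca cb WeierstrassCurve.Affine.baseChange WeierstrassCurve.toAffine
  ext
  · exact map_zero _
  · show algebraMap (K w) QBar (3 * (1 - gen w) * emb (gen w) D) = _
    rw [map_mul, map_mul, map_sub, map_one, map_ofNat, h1, h2]
  · exact map_zero _
  · show algebraMap (K w) QBar (gen w ^ 4 * emb (gen w) D ^ 2) = _
    rw [map_mul, map_pow, map_pow, h1, h2]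
  · exact map_zero _

/-- the points of equal curves -/
noncomputable def tr {W W' : Affine QBar} (h : W = W') : W.Point ≃+ W'.Point := by
  subst h
  exact AddEquiv.refl _

lemma tr_some {W W' : Affine QBar} (h : W = W') {a b : QBar} (hab : W.Nonsingular a b) :
    tr h (.some a b hab) = .some a b (h ▸ hab) := by
  subst h
  rfl

lemma tr_act (h : WD w (em hw D)) (fx : ∀ σ : Gal w, Pool.Agent.R384.Fx w (em hw D)
    (Pool.Agent.R384.rh σ)) (σ : Gal w) (P : Pts w D) :
    tr (curve_eq hw) (act σ P) = Pool.Agent.R384.act h fx σ (tr (curve_eq hw) P) := by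
  rcases P with _ | ⟨a, b, hab⟩
  · show tr (curve_eq hw) (act σ 0) = Pool.Agent.R384.act h fx σ (tr (curve_eq hw) 0)
    simp only [map_zero]
  · rw [tr_some (curve_eq hw) hab]
    exact tr_some (curve_eq hw) (a := σ.toAlgHom a) (b := σ.toAlgHom b)
      ((Affine.baseChange_nonsingular (ED w D).toAffine σ.toAlgHom.injective ..).mpr hab)

lemma elliptic (hD : D ≠ 0) (hw : w ^ 2 = w - 2) : (ED w D).IsElliptic := by
  have hg := gen_sq.2 hw
  have hg0 : gen w ≠ 0 := by
    intro h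
    rw [h] at hg
    norm_num at hg
  have hg1 : 1 - gen w ≠ 0 := by
    intro h
    have h1 : gen w = 1 := (sub_eq_zero.1 h).symm
    rw [h1] at hg
    norm_num at hg
  have hd : (emb (gen w) D : K w) ≠ 0 := by
    intro h
    have h1 := emb_eq hw D
    rw [h] at h1
    exact hD (Pool.Agent.R384.em_inj hw h1.symm)
  rw [WeierstrassCurve.isElliptic_iff, isUnit_iff_ne_zero]
  have e : (ED w D).Δ = 16 * (gen w ^ 4 * emb (gen w) D ^ 2) ^ 2 *
      ((1 - gen w) ^ 8 * emb (gen w) D ^ 2) := by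
    simp only [ED, curve, WeierstrassCurve.Δ, WeierstrassCurve.b₂, WeierstrassCurve.b₄,
      WeierstrassCurve.b₆, WeierstrassCurve.b₈]
    generalize emb (gen w) D = d at *
    generalize gen w = g at *
    have h2 : (1 - g) ^ 2 = -1 - g := by linear_combination hg
    have h4 : (1 - g) ^ 4 = 3 * g - 1 := by
      have : (1 - g) ^ 4 = ((1 - g) ^ 2) ^ 2 := by ring
      rw [this, h2]
      linear_combination hg
    have h8 : (1 - g) ^ 8 = 3 * g - 17 := by
      have : (1 - g) ^ 8 = ((1 - g) ^ 4) ^ 2 := by ring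
      rw [this, h4]
      linear_combination 9 * hg
    have g4 : g ^ 4 = 2 - 3 * g := by linear_combination (g ^ 2 + g - 1) * hg
    rw [h8]
    have e1 : 9 * (1 - g) ^ 2 - 4 * g ^ 4 = 3 * g - 17 := by
      rw [h2, g4]; ring
    rw [← e1]
    ring
  rw [e]
  exact mul_ne_zero (mul_ne_zero (by norm_num) (pow_ne_zero _ (mul_ne_zero (pow_ne_zero _ hg0)
    (pow_ne_zero _ hd)))) (mul_ne_zero (pow_ne_zero _ hg1) (pow_ne_zero _ hd))

/-! ### The isomorphism -/

lemma gen_iso {F : Type} [Field F] [CharZero F] {g d : F} (hg : g ^ 2 = g - 2) :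
    (⟨Units.mk0 (1 / 2 : F) (by norm_num), -((g + 2) * d / 4), -(1 / 2), (g + 2) * d / 8⟩ :
      VariableChange F) • (⟨1, -((3 * d + 1) / 4), 0, -2 * d ^ 2, -d ^ 3⟩ : WeierstrassCurve F) =
      ⟨0, 3 * (1 - g) * (d - 2 * d * g), 0, g ^ 4 * (d - 2 * d * g) ^ 2, 0⟩ := by
  have hu : (((Units.mk0 (1 / 2 : F) (by norm_num))⁻¹ : Fˣ) : F) = 2 := by
    simp
  ext
  · simp only [variableChange_a₁, hu]
    norm_num
  · simp only [variableChange_a₂, hu]
    linear_combination (-6 * d) * hg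
  · simp only [variableChange_a₃, hu]
    ring
  · simp only [variableChange_a₄, hu]
    linear_combination ((-4 * g ^ 4 + 7 * g ^ 2 + 7 * g - 4) * d ^ 2) * hg
  · simp only [variableChange_a₆, hu]
    linear_combination ((-g - 10) * d ^ 3) * hg

lemma tw_iso (hw : w ^ 2 = w - 2) (D : ℕ) :
    ∃ C : VariableChange (K w), C • (E D).map (algebraMap ℚ (K w)) = ED w (tw D) := by
  have hg := gen_sq.2 hw
  have hemb : (emb (gen w) (tw D) : K w) = D - 2 * D * gen w := by
    unfold emb tw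
    push_cast
    ring
  refine ⟨_, Eq.trans (congrArg _ ?_) ((gen_iso (d := (D : K w)) hg).trans ?_)⟩
  · unfold E WeierstrassCurve.map
    congr 1 <;> simp
  · unfold ED curve
    rw [hemb]

/-! ### The arithmetic of the class -/

open Pool.Agent.R426.QB (Ac Ac8 Pc GO Nsq AcS Cz Gc)

lemma adm_iff (D : ℕ) : Adm D ↔ Ac8 D := by
  constructor
  · rintro ⟨h1, h2, h3⟩
    exact ⟨⟨h1, fun p hp => ⟨Nat.prime_of_mem_primeFactors hp,
      h3 p (Nat.prime_of_mem_primeFactors hp) (Nat.dvd_of_mem_primeFactors hp)⟩⟩, h2⟩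
  · rintro ⟨⟨h1, h2⟩, h3⟩
    exact ⟨h1, h3, fun p hp hd => (h2 p (hp.mem_primeFactors hd h1.ne_zero)).2⟩

lemma tw_ne {D : ℕ} (hD : D ≠ 0) : tw D ≠ 0 := by
  intro h
  have h1 := congrArg QuadraticAlgebra.re h
  have h2 : (D : ℤ) = 0 := h1
  exact hD (by exact_mod_cast h2)

lemma tw_eq (D : ℕ) : tw D = -(Pool.Agent.R384.s7 * ((D : ℤ) : OK)) := by
  ext
  · simp [tw, Pool.Agent.R384.s7]
  · simp [tw, Pool.Agent.R384.s7]

/-- an auxiliary prime number -/
lemma exists_aux (D : ℕ) (hD : D ≠ 0) : ∃ r, Pool.Agent.Y698.Inq r ∧ ¬ r ∣ D := by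
  have h1 : IsUnit ((5 : ℕ) : ZMod 28) := by
    rw [ZMod.isUnit_iff_coprime]
    norm_num
  obtain ⟨r, hr, hp, h2⟩ := Nat.forall_exists_prime_gt_and_eq_mod h1 D
  have h3 : r % 28 = 5 := by
    have := (ZMod.natCast_eq_natCast_iff' r 5 28).1 h2
    simpa using this
  refine ⟨r, ⟨hp, by omega, ?_⟩, fun h => ?_⟩
  · rw [Pool.Agent.R428.Q0.sq7_iff hp (by omega)]
    omega
  · exact absurd (Nat.le_of_dvd (Nat.pos_of_ne_zero hD) h) (by omega)

/-- the sets of the prime factors -/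
lemma sets {D : ℕ} (h : Ac D) :
    (∀ q ∈ D.primeFactors.filter fun p => p % 8 ≠ 1, Pool.Agent.Y698.Inq q) ∧
    (∀ q ∈ D.primeFactors.filter fun p => p % 8 = 1, Pool.Agent.Y698.SG.Spl q) ∧
    ∏ q ∈ (D.primeFactors.filter fun p => p % 8 ≠ 1) ∪ (D.primeFactors.filter fun p => p % 8 = 1),
      q = D := by
  refine ⟨fun q hq => ?_, fun q hq => ?_, ?_⟩
  · obtain ⟨h1, h2⟩ := Finset.mem_filter.1 hq
    exact (h.2 q h1).inq h2
  · obtain ⟨h1, h2⟩ := Finset.mem_filter.1 hq
    exact (h.2 q h1).spl h2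
  · rw [Finset.union_comm, Finset.filter_union_filter_not_eq]
    exact h.prod

/-- the descent decides by the matrix -/
lemma good_iff {D : ℕ} (h : Ac D) :
    RankZeroShaTwo D ↔ Pool.Agent.Y703.CQ.Gd Pool.Agent.Y698.SG.n4 D.primeFactors := by
  classical
  rw [Pool.Agent.R428.Q0.gd_iff]
  obtain ⟨hQ, hP, hDu⟩ := sets h
  set Q := D.primeFactors.filter fun p => p % 8 ≠ 1 with hQd
  set P := D.primeFactors.filter fun p => p % 8 = 1 with hPd
  have hm4 : D % 4 = 1 := by
    have h1 := Pool.Agent.Y698.prod_mod_four (S := D.primeFactors) fun p hp => by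
      rcases (h.2 p hp).or8 with h | h <;> omega
    rwa [Nat.prod_primeFactors_of_squarefree h.1] at h1
  obtain ⟨r, hr, hrD⟩ := exists_aux D h.1.ne_zero
  have hrf : Fact r.Prime := ⟨hr.pr⟩
  have hM : IsCyclotomicExtension {r} ℚ (CyclotomicField r ℚ) := Pool.Agent.Y698.cyc_inst r
  have hd : Pool.Agent.R428.Q0.DQ r Q P := ⟨hr, fun q hq => ⟨hQ q hq, by
    rintro rfl
    exact hrD (Nat.dvd_of_mem_primeFactors (Finset.mem_filter.1 hq).1)⟩, hP⟩
  obtain ⟨j, hj'⟩ : ∃ j, D = 1 + 4 * j := ⟨D / 4, by omega⟩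
  have hj : ∏ q ∈ Q ∪ P, q = 1 + 4 * j := hDu.trans hj'
  have hE : E D = Pool.Agent.Y698.AX ℚ j := by
    unfold E Pool.Agent.Y698.AX Pool.Agent.Y698.EX
    rw [hj']
    congr 1
    · push_cast; ring
    · push_cast; ring
    · push_cast; ring
  have hrat : ∀ k : ℚ, ∃ u : ℚ, k = u := fun k => ⟨k, (Rat.cast_id k).symm⟩
  unfold RankZeroShaTwo
  rw [hE]
  constructor
  · rintro ⟨h1, h2⟩
    exact Pool.Agent.R428.Q0.conv0 (CyclotomicField r ℚ) ℚ hd hj h1 fun x hx => h2 x (by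
      rw [two_nsmul]; exact hx)
  · intro h4
    exact ⟨Pool.Agent.R428.Q0.mw_finite0 ℚ hrat hQ hP h4 hj, fun x hx =>
      Pool.Agent.R428.Q0.sha_two0 ℚ hrat hQ hP h4 hj x (by rw [← two_nsmul]; exact hx)⟩

lemma galL_eq {n : ℕ} (s : Fin n → QBar) : GalL w s = Pool.Agent.R384.fixs s Finset.univ := by
  ext σ
  unfold GalL
  rw [IntermediateField.mem_fixingSubgroup_iff]
  constructor
  · intro h i _
    exact h (s i) (IntermediateField.subset_adjoin _ _ ⟨i, rfl⟩)
  · intro h x hx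
    have h1 : IntermediateField.adjoin (K w) (Set.range s) ≤
        IntermediateField.fixedField (Pool.Agent.R384.fixs s Finset.univ) := by
      rw [IntermediateField.adjoin_le_iff]
      rintro _ ⟨i, rfl⟩
      rw [SetLike.mem_coe, IntermediateField.mem_fixedField_iff]
      intro f hf
      exact hf i (Finset.mem_univ i)
    exact (IntermediateField.mem_fixedField_iff _ x).1 (h1 hx) σ h

/-- the transfer -/
lemma selmer_of {v : Pool.Agent.R384.OO} {χ : Chr w} {H : Sub w}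
    (h : Pool.Agent.R384.VanOn hw v χ H) {v' : QBar} (hv : Pool.Agent.R384.em hw v = v') :
    SelmerZero v' H χ := by
  intro c hc hs
  obtain ⟨y, hy⟩ := h c ⟨hc.cont, hc.mul⟩ (fun p _ ι hp => hs.odd p ι hp) (fun ι hι => by
    rw [hv] at hι
    exact hs.two ι hι)
  exact ⟨y, fun σ _ h => hy σ h⟩

/-- the vanishing -/
lemma all_of {M n : ℕ} {d : Fin n → ℕ} (hG : Good M d) : AllWeights M d := by
  intro w hw
  have hM0 : M ≠ 0 := by
    obtain ⟨D, k, hk, hD, -, he⟩ := hG ∅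
    rw [Finset.prod_empty, mul_one] at he
    rw [he]
    exact mul_ne_zero hD.1.ne_zero (pow_ne_zero 2 hk)
  have hd0 : ∀ i, d i ≠ 0 := by
    intro i
    obtain ⟨D, k, hk, hD, -, he⟩ := hG {i}
    rw [Finset.prod_singleton] at he
    exact right_ne_zero_of_mul (he ▸ mul_ne_zero hD.1.ne_zero (pow_ne_zero 2 hk))
  have hD := tw_ne hM0
  refine ⟨tw_iso hw M, elliptic hD hw, ?_⟩
  have h : Pool.Agent.R384.WD w (Pool.Agent.R384.em hw (tw M)) := ⟨hw, Pool.Agent.R384.em_ne hw hD⟩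
  obtain ⟨r, hr⟩ : ∃ r : QBar, r ^ 2 = Pool.Agent.R384.em hw (tw M) :=
    IsAlgClosed.exists_pow_nat_eq _ (by norm_num)
  obtain ⟨I, hI⟩ : ∃ I : QBar, I ^ 2 = -1 := IsAlgClosed.exists_pow_nat_eq _ (by norm_num)
  have fx : ∀ σ : Gal w, Pool.Agent.R384.Fx w (Pool.Agent.R384.em hw (tw M))
      (Pool.Agent.R384.rh σ) := fun σ =>
    ⟨Pool.Agent.Y715.Gi.gk_fix σ, Pool.Agent.R384.gk_em hw σ (tw M)⟩
  obtain ⟨κ, κ', x, y, kd, hx, hy, ax, ay⟩ := Pool.Agent.R384.exists_kd hw hD h hr hI fx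
  have td := Pool.Agent.R384.td h
  set T := tr (curve_eq hw (D := tw M)) with hT
  have hor : ∀ {p : ℕ} [Fact p.Prime] (ι : QBar →ₐ[ℚ] PadicAlgCl p) (s : QBar) (z : OK),
      s ^ 2 = Pool.Agent.R384.em hw z → ∀ σ : Gal w, σ s = s ∨ σ s = -s := fun ι s z hs σ =>
    Pool.Agent.R384.rt_or hw hs σ
  have hIr : (I * r) ^ 2 = Pool.Agent.R384.em hw (-tw M) := by rw [mul_pow, hI, hr, map_neg]; ring
  refine ⟨κ, κ', ⟨⟨fun n => T.symm (y n), fun n => T.symm (x n), ⟨?_, ?_, ?_, ?_⟩,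
    ⟨Units.continuous_val.comp kd.cont, fun σ => ?_⟩,
    ⟨Units.continuous_val.comp kd.cont', fun σ => ?_⟩⟩, ?_, ?_⟩, ?_⟩
  · show T.symm (y 0) = 0 ∧ T.symm (x 0) = 0
    rw [hx.zero, hy.zero, map_zero]
    exact ⟨rfl, rfl⟩
  · intro n
    show T.symm (y (n + 1)) + T.symm (y (n + 1)) = T.symm (y n) ∧
      T.symm (x (n + 1)) + T.symm (x (n + 1)) = T.symm (x n)
    rw [← map_add, ← map_add, hx.dbl, hy.dbl]
    exact ⟨rfl, rfl⟩
  · intro n P hP
    have h1 : (2 ^ n : ℤ) • T P = 0 := by rw [← map_zsmul, hP, map_zero]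
    obtain ⟨a, b, hab⟩ := Pool.Agent.R384.Tow.basis td hx hy h1
    refine ⟨b, a, ?_⟩
    apply T.injective
    show T P = T (b • T.symm (y n) + a • T.symm (x n))
    rw [map_add, map_zsmul, map_zsmul, T.apply_symm_apply, T.apply_symm_apply, hab, add_comm]
  · intro n a b hab
    have h1 : T (a • T.symm (y n) + b • T.symm (x n)) = 0 := by
      show T ((fun n => a • T.symm (y n) + b • T.symm (x n)) n) = 0
      rw [show (fun n => a • T.symm (y n) + b • T.symm (x n)) n = 0 from hab, map_zero]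
    rw [map_add, map_zsmul, map_zsmul, T.apply_symm_apply, T.apply_symm_apply, add_comm] at h1
    exact (Pool.Agent.R384.Tow.uniq td hx hy h1).symm
  · intro n k hk
    show act σ (T.symm (y n)) = k • T.symm (y n)
    apply T.injective
    rw [hT, tr_act hw h fx σ, ← hT, T.apply_symm_apply, map_zsmul, T.apply_symm_apply]
    exact ay σ n k hk
  · intro n k hk
    show act σ (T.symm (x n)) = k • T.symm (x n)
    apply T.injective
    rw [hT, tr_act hw h fx σ, ← hT, T.apply_symm_apply, map_zsmul, T.apply_symm_apply]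
    exact ax σ n k hk
  · rintro p _ ι hn σ ⟨τ, hτ, hin⟩
    have h1 := kd.inert p ι τ σ hτ hin hn
    unfold zv
    rcases hor ι _ _ hIr σ with h2 | h2
    · rw [h1.1 h2, Units.val_one, one_pow]
    · rw [h1.2 h2, Units.val_neg, Units.val_one, neg_one_sq]
  · rintro p _ ι hn σ ⟨τ, hτ, hin⟩
    have h1 := kd.inert' p ι τ σ hτ hin hn
    unfold zv
    rcases hor ι _ _ hr σ with h2 | h2
    · rw [h1.1 h2, Units.val_one, one_pow]
    · rw [h1.2 h2, Units.val_neg, Units.val_one, neg_one_sq]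
  · intro s hs k _ hk
    have hom : Pool.Agent.R384.em hw Pool.Agent.R384.om = w := by
      rw [Pool.Agent.R384.em_apply]
      simp [Pool.Agent.R384.om]
    have hom' : Pool.Agent.R384.em hw (1 - Pool.Agent.R384.om) = 1 - w := by
      rw [map_sub, map_one, hom]
    have hk' : Even (1 - k) := by
      rw [Int.even_sub]
      simp [Int.not_even_iff_odd.2 hk]
    have hE : ∀ i, s i ^ 2 = Pool.Agent.R384.em hw (((d i : ℤ) : Pool.Agent.R384.OO)) := by
      intro i
      rw [hs i, map_intCast]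
      push_cast
      rfl
    have hE0 : ∀ i, (((d i : ℤ) : Pool.Agent.R384.OO)) ≠ 0 := by
      intro i h1
      have h2 := congrArg QuadraticAlgebra.re h1
      simp at h2
      exact hd0 i h2
    have hgood : ∀ T : Finset (Fin n), ∃ (m : ℕ) (q : Fin m → Pool.Agent.R384.OO)
        (z : Pool.Agent.R384.OO), (∀ i, Pool.Agent.R384.Pr (q i)) ∧
        Function.Injective q ∧ (8 : Pool.Agent.R384.OO) ∣ ∏ i, q i - 1 ∧
        Pool.Agent.R384.Indec7 q ∧ z ≠ 0 ∧
        tw M * ∏ i ∈ T, (((d i : ℤ) : Pool.Agent.R384.OO)) =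
          -(Pool.Agent.R384.s7 * ∏ i, q i) * z ^ 2 := by
      intro T
      obtain ⟨D, k, hk0, hA, hR, he⟩ := hG T
      have hA' := (adm_iff D).1 hA
      have hgd := (good_iff hA'.1).1 hR
      rw [Pool.Agent.R428.Q0.gd_iff] at hgd
      obtain ⟨m, q, hpr, hinj, h8, hind, hprod⟩ := Pool.Agent.R384.factor7 hA.1 (fun p hp => by
        rcases (hA'.1.2 p hp).2 with h | h
        · exact Or.inl ⟨(hA'.1.2 p hp).1, h.1, h.2⟩
        · exact Or.inr ⟨(hA'.1.2 p hp).1, h.1, h.2⟩) hA.2.1 hgd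
      refine ⟨m, q, ((k : ℤ) : Pool.Agent.R384.OO), hpr, hinj, h8, hind, ?_, ?_⟩
      · intro h1
        have h2 := congrArg QuadraticAlgebra.re h1
        simp at h2
        exact hk0 h2
      · rw [hprod, tw_eq]
        have h1 : ((M : ℤ) : Pool.Agent.R384.OO) * ∏ i ∈ T, (((d i : ℤ) : Pool.Agent.R384.OO)) =
            ((D : ℤ) : Pool.Agent.R384.OO) * ((k : ℤ) : Pool.Agent.R384.OO) ^ 2 := by
          have h2 : (M : ℤ) * ∏ i ∈ T, (d i : ℤ) = (D : ℤ) * (k : ℤ) ^ 2 := by exact_mod_cast he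
          have h3 := congrArg (fun a : ℤ => (a : Pool.Agent.R384.OO)) h2
          simp only [Int.cast_mul, Int.cast_pow, Int.cast_prod] at h3
          exact h3
        linear_combination (-Pool.Agent.R384.s7) * h1
    rw [galL_eq]
    exact ⟨selmer_of hw (Pool.Agent.R384.vanish_mq hw hE kd hD hE0 hgood k
        (Or.inr ⟨hk, rfl, rfl⟩)) hom',
      selmer_of hw (Pool.Agent.R384.vanish_mq hw hE kd hD hE0 hgood (1 - k)
        (Or.inl ⟨hk', rfl, rfl⟩)) hom⟩

/-! ### The proportions -/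

lemma mod_prod {n : ℕ} {d : Fin n → ℕ} (hd : ∀ i, d i % 8 = 1) (T : Finset (Fin n)) :
    (∏ i ∈ T, d i) % 8 = 1 := by
  rw [Finset.prod_nat_mod]
  simp [hd]

lemma good_of {M n : ℕ} {d : Fin n → ℕ} (hM : M % 8 = 1) (hd : ∀ i, d i % 8 = 1)
    (h : GO (fun i => (d i : ℤ)) (M : ℤ)) : Good M d := by
  intro T
  obtain ⟨D, hD, k, hk, hz⟩ := h T
  have hpos : (0 : ℤ) < (M : ℤ) * ∏ i ∈ T, (d i : ℤ) := by
    refine mul_pos ?_ (Finset.prod_pos fun i _ => ?_)
    · omega
    · have := hd i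
      omega
  have hDp : (0 : ℤ) < D := by exact_mod_cast Nat.pos_of_ne_zero hD.1.1.ne_zero
  have hk2 : 0 < k ^ 2 := by positivity
  have h1 : (M : ℤ) * ∏ i ∈ T, (d i : ℤ) = D * k ^ 2 := by
    rcases hz with h1 | h1
    · exact h1
    · exfalso
      rw [h1] at hpos
      nlinarith [mul_pos hDp hk2]
  have h2 : M * ∏ i ∈ T, d i = D * k.natAbs ^ 2 := by
    have h3 : ((M * ∏ i ∈ T, d i : ℕ) : ℤ) = ((D * k.natAbs ^ 2 : ℕ) : ℤ) := by
      push_cast
      rw [sq_abs]
      exact h1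
    exact_mod_cast h3
  have h8 : D % 8 = 1 := by
    have h3 : (M * ∏ i ∈ T, d i) % 8 = 1 := by
      rw [Nat.mul_mod, hM, mod_prod hd]
    rw [h2] at h3
    have h4 : ((D % 8) * ((k.natAbs % 8) ^ 2 % 8)) % 8 = 1 := by
      rw [← h3, Nat.mul_mod D, Nat.pow_mod k.natAbs]
    have hx8 : D % 8 < 8 := Nat.mod_lt _ (by norm_num)
    have hg8 : k.natAbs % 8 < 8 := Nat.mod_lt _ (by norm_num)
    revert h4
    generalize D % 8 = a at *
    generalize k.natAbs % 8 = b at *
    interval_cases a <;> interval_cases b <;> simp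
  exact ⟨D, k.natAbs, Int.natAbs_ne_zero.2 hk, (adm_iff D).2 ⟨hD.1, h8⟩,
    (good_iff hD.1).2 hD.2, h2⟩

lemma go_of {M n : ℕ} {d : Fin n → ℕ} (h : Good M d) : GO (fun i => (d i : ℤ)) (M : ℤ) := by
  intro T
  obtain ⟨D, k, hk, hD, hR, he⟩ := h T
  have hD' := (adm_iff D).1 hD
  refine ⟨D, ⟨hD'.1, (good_iff hD'.1).1 hR⟩, (k : ℤ), by exact_mod_cast hk, Or.inl ?_⟩
  show (M : ℤ) * ∏ i ∈ T, ((d i : ℕ) : ℤ) = (D : ℤ) * (k : ℤ) ^ 2
  exact_mod_cast he

lemma nsq_of {n : ℕ} {d : Fin n → ℕ} (hd : ∀ i, d i ≠ 0) (h : Ind d) (T : Finset (Fin n))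
    (hT : T.Nonempty) : Nsq (∏ i ∈ T, (d i : ℤ)) := by
  have hpos : (0 : ℤ) < ∏ i ∈ T, (d i : ℤ) := Finset.prod_pos fun i _ => by
    have := Nat.pos_of_ne_zero (hd i)
    omega
  constructor
  · rintro ⟨r, hr⟩
    apply h T hT
    refine ⟨r.natAbs, ?_⟩
    have h1 : ((∏ i ∈ T, d i : ℕ) : ℤ) = ((r.natAbs * r.natAbs : ℕ) : ℤ) := by
      rw [Int.natAbs_mul_self]
      push_cast
      exact hr
    exact_mod_cast h1
  · rintro ⟨r, hr⟩
    have h1 : 0 ≤ r * r := mul_self_nonneg r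
    linarith

lemma ind_of {n : ℕ} {d : Fin n → ℕ}
    (h : ∀ T : Finset (Fin n), T.Nonempty → Nsq (∏ i ∈ T, (d i : ℤ))) : Ind d := by
  rintro T hT ⟨r, hr⟩
  apply (h T hT).1
  refine ⟨(r : ℤ), ?_⟩
  exact_mod_cast hr

lemma acS_of {D : ℕ} (h : Adm D) : AcS (D : ℤ) :=
  ⟨D, ((adm_iff D).1 h).1, 1, one_ne_zero, Or.inl (by ring)⟩

lemma prop_mono {P P' : ℕ → Prop} (h : ∀ D, Ac8 D ∧ P D → P' D) (X : ℕ) :
    (((Finset.Icc 1 X).filter fun D : ℕ => Ac8 D ∧ P D).card : ℝ) /
      (((Finset.Icc 1 X).filter fun D : ℕ => Ac8 D).card : ℝ) ≤ prop P' X := by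
  have e : ((Finset.Icc 1 X).filter fun D : ℕ => Ac8 D) =
      (Finset.Icc 1 X).filter fun D : ℕ => Adm D :=
    Finset.filter_congr fun D _ => (adm_iff D).symm
  unfold prop
  rw [e]
  refine div_le_div_of_nonneg_right (Nat.cast_le.2 (Finset.card_le_card fun D hD => ?_))
    (Nat.cast_nonneg _)
  obtain ⟨h1, h2⟩ := Finset.mem_filter.1 hD
  exact Finset.mem_filter.2 ⟨h1, (adm_iff D).2 h2.1, h D h2⟩

lemma prop_one {n M : ℕ} {d : Fin n → ℕ} (hM : Adm M) (hd : ∀ i, Adm (d i)) (hI : Ind d)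
    {x : ℝ} (hx : x < c ^ 2 ^ n) :
    ∀ᶠ X : ℕ in atTop, x < prop (fun D => AllWeights (M * D) d) X := by
  have h := Pool.Agent.R426.QB.prop_field Pool.Agent.Y687.JQ.t_JDEN (n := n)
    (d := fun i => (d i : ℤ)) (nsq_of (fun i => (hd i).1.ne_zero) hI)
    (fun i => acS_of (hd i)) (N := (M : ℤ)) (acS_of hM)
  filter_upwards [h.eventually_const_lt hx] with X hX
  refine lt_of_lt_of_le hX (prop_mono (P := fun D => GO (fun i => (d i : ℤ)) ((M : ℤ) * D))
    (fun D hD => all_of (good_of ?_ (fun i => (hd i).2.1) ?_)) X)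
  · rw [Nat.mul_mod, hM.2.1, hD.1.2]
  · have h1 := hD.2
    push_cast
    exact h1

lemma prop_two {n M : ℕ} {d : Fin n → ℕ} (hM : Adm M) (hd : ∀ i, Adm (d i)) (hI : Ind d)
    (hG : Good M d) {x : ℝ} (hx : x < c ^ 2 ^ n) :
    ∀ᶠ X : ℕ in atTop, x < prop (fun D => Ind (add d D) ∧ Good M (add d D) ∧
      AllWeights M (add d D)) X := by
  have h := Pool.Agent.R426.QB.prop_ext Pool.Agent.Y687.JQ.t_JDEN (n := n)
    (d := fun i => (d i : ℤ)) (nsq_of (fun i => (hd i).1.ne_zero) hI) (go_of hG)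
  have hcast : ∀ D : ℕ, (Fin.snoc (fun i => (d i : ℤ)) (D : ℤ) : Fin (n + 1) → ℤ) =
      fun i => ((add d D i : ℕ) : ℤ) := by
    intro D
    funext i
    refine Fin.lastCases ?_ (fun i => ?_) i
    · simp [add]
    · simp [add]
  filter_upwards [h.eventually_const_lt hx] with X hX
  refine lt_of_lt_of_le (b := (((Finset.Icc 1 X).filter fun D : ℕ => Ac8 D ∧
      ((∀ T : Finset (Fin (n + 1)), T.Nonempty → Nsq
        (∏ i ∈ T, (Fin.snoc (fun i => (d i : ℤ)) (D : ℤ) : Fin (n + 1) → ℤ) i)) ∧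
      GO (Fin.snoc (fun i => (d i : ℤ)) (D : ℤ) : Fin (n + 1) → ℤ) M)).card : ℝ) /
    (((Finset.Icc 1 X).filter fun D : ℕ => Ac8 D).card : ℝ)) hX ?_
  have h0 := prop_mono (P := fun D => (∀ T : Finset (Fin (n + 1)), T.Nonempty →
    Nsq (∏ i ∈ T, (Fin.snoc (fun i => (d i : ℤ)) (D : ℤ) : Fin (n + 1) → ℤ) i)) ∧
    GO (Fin.snoc (fun i => (d i : ℤ)) (D : ℤ) : Fin (n + 1) → ℤ) M)
    (P' := fun D => Ind (add d D) ∧ Good M (add d D) ∧ AllWeights M (add d D)) (fun D hD => ?_) X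
  · exact le_trans (le_of_eq (by congr!)) h0
  obtain ⟨h1, h2, h3⟩ := hD
  rw [hcast] at h2 h3
  have hm : ∀ i, add d D i % 8 = 1 := by
    intro i
    refine Fin.lastCases ?_ (fun i => ?_) i
    · simpa [add] using h1.2
    · simpa [add] using (hd i).2.1
  have h4 := good_of hM.2.1 hm h3
  exact ⟨ind_of h2, h4, all_of h4⟩

end proof

/-- **The Bloch–Kato Selmer groups of all odd weights for the twists of `X_0(49)` over multiquadratic
fields.** -/
theorem result :
    (∀ (n M : ℕ) (d : Fin n → ℕ), Good M d → AllWeights M d) ∧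
    (∀ (n M : ℕ) (d : Fin n → ℕ), InClass M d →
      AtLeast (c ^ 2 ^ n) fun D => AllWeights (M * D) d) ∧
    (∀ (n M : ℕ) (d : Fin n → ℕ), InClass M d → Good M d → AtLeast (c ^ 2 ^ n) fun D =>
      Ind (add d D) ∧ Good M (add d D) ∧ AllWeights M (add d D)) ∧
    0.4194 < c ∧ c < 0.4195 := by
  refine ⟨fun n M d h => all_of h, ?_, ?_,
    Pool.Agent.Y948.CQ.t_C2.2.2.2.1, Pool.Agent.Y948.CQ.t_C2.2.2.2.2⟩
  · rintro n M d ⟨hM, hd, hI⟩ x hx
    exact prop_one hM hd hI hx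
  · rintro n M d ⟨hM, hd, hI⟩ hG x hx
    exact prop_two hM hd hI hG hx

end Pool.Agent.Results.MP_787500_nt.AllWeightsMultiquadraticX49
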