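import Pool.Agent.R901.EC.Tower
import Pool.Agent.R901.EC.X11
import Pool.Agent.Y667.BKK.Main
import Pool.Agent.Y667.BK.Fin

/-!
# Abel–Jacobi maps onto Bloch–Kato Selmer groups over Galois extensions with any 2-group as Galois group

`E` is an elliptic curve over `ℚ` of negative discriminant, given by a Weierstrass equation `W` with
integer coefficients, whose 2-Selmer group over `ℚ` is trivial.  `K` is a Galois extension of `ℚ` of
degree `2 ^ n`, with any Galois group, abelian or not, such that the primes which divide `2Δ` split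
completely in `K` and `E` has an odd number of points modulo the primes that ramify in `K`.
Then `E(K) ⊗ ℚ₂ = 0` and the Bloch–Kato Selmer group `H¹_f(K, V₂ E)` is zero, so that the 2-adic
Abel–Jacobi (Kummer) map `CH¹(E)_0 ⊗ ℚ₂ = E(K) ⊗ ℚ₂ → H¹_f(K, V₂ E)` is an isomorphism.

The curve `X_0(11)` satisfies the hypotheses on `E` (second part).

The proof (`Y702/G`, `Y355/G`): a nonzero 2-Selmer group over the 2-extension `K` has a nonzero element
fixed by the 2-group `Gal(K/ℚ)`; it comes from a class over `ℚ`, as `E(K)` has no points of order two,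
and this class satisfies the local conditions over `ℚ`: at the primes that divide `2Δ` as they split,
at the real place as `Δ < 0`, and at the primes that ramify in `K` as `E` has no points of order two
modulo these primes.  So `Sel_2(E/K) = 0`, `E(K)` is finite and `Ш(E/K)[2^∞] = 0`, and a class in
`H¹_f(K, V₂ E)` vanishes as its coordinates give elements of `Ш(E/K)[2^∞]`.
-/

set_option autoImplicit false

open NumberField IsDedekindDomain

namespace Pool.Agent.Results.MP_787500_nt.GaloisTwoExtensions

open Pool.Agent.Y667.BKK (H1f)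

/-- The curve given by the equation of `W` over the ring `R`. -/
abbrev base (W : WeierstrassCurve ℤ) (R : Type) [CommRing R] : WeierstrassCurve R :=
  W.map (Int.castRingHom R)

/-- The number of the affine points `(x, y)` over the ring `R`. -/
noncomputable def pts (W : WeierstrassCurve ℤ) (R : Type) [CommRing R] : ℕ :=
  Nat.card {P : R × R // (base W R).toAffine.Equation P.1 P.2}

open Classical in
/-- The 2-Selmer group of `W` over `ℚ` is trivial: `W(ℚ)` is finite of odd order and `Ш(W/ℚ)` has no
element of order two. -/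
def TrivialTwoSelmer (W : WeierstrassCurve ℤ) : Prop :=
  Finite (base W ℚ).toAffine.Point ∧ Odd (Nat.card (base W ℚ).toAffine.Point) ∧
  ∀ s : Pool.Agent.TH841.NF.D.Sha (base W ℚ), 2 • s = 0 → s = 0

/-- The prime `p` is unramified in `K`: it has valuation one at all the places above it. -/
def Unramified (K : Type) [Field K] [NumberField K] (p : ℕ) : Prop :=
  ∀ v : HeightOneSpectrum (𝓞 K), (p : 𝓞 K) ∈ v.asIdeal →
    v.valuation K (p : K) = WithZero.exp (-1 : ℤ)

/-- The prime `p` splits completely in `K`: it is unramified and the residue fields of the places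
above it are the prime field. -/
def SplitsCompletely (K : Type) [Field K] [NumberField K] (p : ℕ) : Prop :=
  Unramified K p ∧ ∀ v : HeightOneSpectrum (𝓞 K), (p : 𝓞 K) ∈ v.asIdeal →
    Ideal.absNorm v.asIdeal = p

/-- `K` is a Galois extension of `ℚ` of degree a power of two, the primes dividing `2Δ` split
completely in `K`, and `K` is unramified outside a number `m` such that for all the primes `l` that
divide `m` the number of the points of `W` modulo `l` (with the point at infinity) is odd. -/
structure IsAdmissibleField (W : WeierstrassCurve ℤ) (K : Type) [Field K] [NumberField K] :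
    Prop where
  galois : IsGalois ℚ K
  degree : ∃ n : ℕ, Module.finrank ℚ K = 2 ^ n
  split : ∀ p : ℕ, p.Prime → (p : ℤ) ∣ 2 * W.Δ → SplitsCompletely K p
  ramified : ∃ m : ℕ, (∀ l : ℕ, l.Prime → l ∣ m → ¬ (l : ℤ) ∣ 2 * W.Δ ∧
      Odd (pts W (ZMod l) + 1)) ∧ ∀ p : ℕ, p.Prime → ¬ p ∣ m → Unramified K p

open Classical in
/-- `E(K) ⊗ ℚ₂` and `H¹_f(K, V₂ E)` are zero. -/
def AJIso (W : WeierstrassCurve ℤ) (K : Type) [Field K] [NumberField K] : Prop :=
  (∀ x : TensorProduct ℤ (base W K).toAffine.Point ℚ_[2], x = 0) ∧ ∀ x : H1f (base W K), x = 0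

/-- The curve `X_0(11) : y² + y = x³ - x² - 10 x - 20`. -/
def X11 : WeierstrassCurve ℤ := ⟨0, -1, 1, -10, -20⟩

open Classical in
/-- `Sel_2(W/K) = 0` -/
theorem sel_of {W : WeierstrassCurve ℤ} (hΔ : W.Δ < 0) (hS : TrivialTwoSelmer W) (K : Type) [Field K]
    [NumberField K] (hK : IsAdmissibleField W K) :
    (∀ s : Pool.Agent.TH841.NF.D.Sha (base W K), 2 • s = 0 → s = 0) ∧
      Finite (base W K).toAffine.Point ∧ Odd (Nat.card (base W K).toAffine.Point) := by
  obtain ⟨hg, ⟨n, hn⟩, hsp, m, hm, hunr⟩ := hK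
  obtain ⟨hfin, hcard, hsha⟩ := hS
  have hm' : ∀ l : ℕ, l.Prime → l ∣ m → ¬ (l : ℤ) ∣ 2 * W.Δ ∧
      Odd ((l : ℤ) - Pool.Agent.Y702.G.pts W (ZMod l)) := by
    intro l hl hlm
    obtain ⟨h1, h2⟩ := hm l hl hlm
    refine ⟨h1, ?_⟩
    have h3 : Even (pts W (ZMod l)) := by
      rw [Nat.odd_add_one, Nat.not_odd_iff_even] at h2
      exact h2
    have h4 : l ≠ 2 := by
      rintro rfl
      exact h1 (Dvd.intro _ rfl)
    have h5 : Odd (l : ℤ) := by exact_mod_cast hl.odd_of_ne_two h4
    exact h5.sub_even (by exact_mod_cast h3)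
  have hdeg : ∀ v : HeightOneSpectrum (𝓞 K), ((2 * W.Δ : ℤ) : 𝓞 K) ∈ v.asIdeal →
      (Ideal.absNorm v.asIdeal).Prime := by
    intro v hv
    set q := Pool.Agent.H921R2.TatePole.below v with hq
    have h6 : (((2 * W.Δ).natAbs : ℕ) : 𝓞 K) ∈ v.asIdeal := by
      rcases Int.natAbs_eq (2 * W.Δ) with h8 | h8
      · rw [h8] at hv
        rw [Int.cast_natCast] at hv
        exact hv
      · rw [h8, Int.cast_neg, neg_mem_iff, Int.cast_natCast] at hv
        exact hv
    rw [Pool.Agent.H82R3.EK.natCast_mem_iff] at h6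
    have h7 := (hsp q q.2 (Int.natCast_dvd.2 h6)).2 v
      ((Pool.Agent.H82R3.EK.natCast_mem_iff v _).2 dvd_rfl)
    rw [h7]
    exact q.2
  have hnr := Pool.Agent.Y702.G.no_root_of_odd W hΔ.ne hfin hcard
  have hsel := Pool.Agent.Y702.G.sel_main2 Pool.Agent.Y93.G.s_inv Pool.Agent.Y141.G2.s_kump
    Pool.Agent.Y852.GS.s_spl Pool.Agent.Y76.GPar.s_par
    (Pool.Agent.Y710.CV.s_conv Pool.Agent.Y46.G2.s_emb)
    (Pool.Agent.Y67.LZ.s_lz Pool.Agent.Y500.G.s_fl) Pool.Agent.Y125.DQ.s_descq
    W hΔ hnr hsha hfin hcard K n m hn hm' hunr hdeg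
  exact Pool.Agent.Y355.G.s_desc W hΔ.ne K hsel (Pool.Agent.Y702.G.no_root _ hnr K n hn)

open Classical in
theorem ajIso_of {W : WeierstrassCurve ℤ} (hΔ : W.Δ < 0) (hS : TrivialTwoSelmer W) (K : Type)
    [Field K] [NumberField K] (hK : IsAdmissibleField W K) : AJIso W K := by
  obtain ⟨h1, h2, -⟩ := sel_of hΔ hS K hK
  have key : ∀ (j : ℕ) (x : Pool.Agent.TH841.NF.D.Sha (base W K)), (2 ^ j : ℕ) • x = 0 → x = 0 := by
    intro j
    induction j with
    | zero => intro x hx; rw [pow_zero, one_nsmul] at hx; exact hx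
    | succ j ih =>
      intro x hx
      apply ih
      apply h1
      rw [← mul_nsmul', ← pow_succ']
      exact hx
  refine ⟨Pool.Agent.Y667.BK.tensor_zero, Pool.Agent.Y667.BKK.h1f_zero h2 0 fun k x hx => ?_⟩
  rw [key k x hx]
  exact smul_zero _

/-- **Theorem.** For every elliptic curve `W` over `ℚ` of negative discriminant with trivial 2-Selmer
group over `ℚ`, and every Galois number field `K` of degree a power of two (with any Galois group) in
which the primes that divide `2Δ` split completely and such that `W` has an odd number of points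
modulo the primes that ramify in `K`, the groups `W(K) ⊗ ℚ₂` and `H¹_f(K, V₂ W)` are zero: the
Abel–Jacobi map is an isomorphism.  The curve `X_0(11)` satisfies the hypotheses. -/
theorem result :
    (∀ W : WeierstrassCurve ℤ, W.Δ < 0 → TrivialTwoSelmer W →
      ∀ (K : Type) [Field K] [NumberField K], IsAdmissibleField W K → AJIso W K) ∧
    (X11.Δ < 0 ∧ TrivialTwoSelmer X11) := by
  refine ⟨fun W hΔ hS K _ _ hK => ajIso_of hΔ hS K hK, ?_, ?_⟩
  · norm_num [X11, WeierstrassCurve.Δ, WeierstrassCurve.b₂, WeierstrassCurve.b₄,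
      WeierstrassCurve.b₆, WeierstrassCurve.b₈]
  · obtain ⟨h1, h2, h3⟩ := Pool.Agent.R901.EC.sel11
    exact ⟨h2, h3, h1⟩

end Pool.Agent.Results.MP_787500_nt.GaloisTwoExtensions
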